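import Pool.Agent.N919.BS.Fin

/-!
# Densities do not change when the criterion is changed at `d = 1` and `d = -1`
-/

set_option autoImplicit false

open Finset Filter

namespace Pool.Agent.N969.Den

open Pool.Agent.N919.BS (NN NS NF Fund core low1 NS_eq NF_eq)

theorem NS_close {P Q : ℤ → Prop} (h : ∀ d, Squarefree d → d ≠ 1 → d ≠ -1 → (P d ↔ Q d)) (X : ℕ) :
    NS P X ≤ NS Q X + 2 := by
  classical
  unfold NS
  have h1 : ((Icc (-(X : ℤ)) X).filter fun d => Squarefree d ∧ P d) ⊆
      ((Icc (-(X : ℤ)) X).filter fun d => Squarefree d ∧ Q d) ∪ {1, -1} := by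
    intro d hd
    obtain ⟨h2, h3, h4⟩ := mem_filter.1 hd
    rw [mem_union]
    by_cases e1 : d = 1
    · right
      rw [e1]
      simp
    by_cases e2 : d = -1
    · right
      rw [e2]
      simp
    left
    exact mem_filter.2 ⟨h2, h3, (h d h3 e1 e2).1 h4⟩
  refine (card_le_card h1).trans ((card_union_le _ _).trans ?_)
  exact Nat.add_le_add_left (card_le_two) _

theorem NF_close {P Q : ℤ → Prop} (h : ∀ d, Squarefree d → d ≠ 1 → d ≠ -1 → (P d ↔ Q d)) (X : ℕ) :
    NF P X ≤ NF Q X + 2 := by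
  classical
  unfold NF
  have h1 : ((Icc (-(X : ℤ)) X).filter fun D => Fund D ∧ P (core D)) ⊆
      ((Icc (-(X : ℤ)) X).filter fun D => Fund D ∧ Q (core D)) ∪ {1, -4} := by
    intro D hD
    obtain ⟨h2, h3, h4⟩ := mem_filter.1 hD
    rw [mem_union]
    by_cases e1 : D = 1
    · right
      rw [e1]
      simp
    by_cases e2 : D = -4
    · right
      rw [e2]
      simp
    left
    have h5 : Squarefree (core D) ∧ core D ≠ 1 ∧ core D ≠ -1 := by
      unfold core
      rcases h3 with ⟨h5, h6⟩ | ⟨m, h5, h6, h7⟩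
      · rw [if_pos (by omega)]
        exact ⟨h5, e1, by omega⟩
      · rw [if_neg (by omega)]
        have e : D / 4 = m := by omega
        rw [e]
        exact ⟨h6, by omega, by omega⟩
    exact mem_filter.2 ⟨h2, h3, (h _ h5.1 h5.2.1 h5.2.2).1 h4⟩
  refine (card_le_card h1).trans ((card_union_le _ _).trans ?_)
  exact Nat.add_le_add_left (card_le_two) _

theorem top_of {T : ℕ → ℕ} (h : ∀ X, NN (fun _ => True) 1 1 1 X ≤ T X) :
    Tendsto (fun X => (T X : ℝ)) atTop atTop := by
  obtain ⟨c, X₀, hc, h1⟩ := low1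
  have h2 : Tendsto (fun X : ℕ => c * (X : ℝ)) atTop atTop :=
    Tendsto.const_mul_atTop hc tendsto_natCast_atTop_atTop
  refine tendsto_atTop_mono' _ ?_ h2
  filter_upwards [eventually_ge_atTop X₀] with X hX
  exact (h1 X hX).trans (by exact_mod_cast h X)

theorem NS_top : Tendsto (fun X => (NS (fun _ => True) X : ℝ)) atTop atTop :=
  top_of fun X => by
    rw [NS_eq]
    omega

theorem NF_top : Tendsto (fun X => (NF (fun _ => True) X : ℝ)) atTop atTop :=
  top_of fun X => by
    rw [NF_eq]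
    omega

theorem lim_close {A B T : ℕ → ℕ} {c : ℝ}
    (hA : Tendsto (fun X => (A X : ℝ) / (T X : ℝ)) atTop (nhds c))
    (h1 : ∀ X, A X ≤ B X + 2) (h2 : ∀ X, B X ≤ A X + 2)
    (hT : Tendsto (fun X => (T X : ℝ)) atTop atTop) :
    Tendsto (fun X => (B X : ℝ) / (T X : ℝ)) atTop (nhds c) := by
  refine tendsto_of_tendsto_of_dist hA ?_
  have h3 : Tendsto (fun X => 2 / (T X : ℝ)) atTop (nhds 0) := tendsto_const_nhds.div_atTop hT
  refine squeeze_zero (fun X => dist_nonneg) (fun X => ?_) h3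
  rw [Real.dist_eq, ← sub_div, abs_div, abs_of_nonneg (Nat.cast_nonneg (T X) : (0 : ℝ) ≤ _)]
  refine div_le_div_of_nonneg_right ?_ (Nat.cast_nonneg _)
  have h4 : (A X : ℝ) ≤ B X + 2 := by exact_mod_cast h1 X
  have h5 : (B X : ℝ) ≤ A X + 2 := by exact_mod_cast h2 X
  rw [abs_le]
  constructor <;> linarith

end Pool.Agent.N969.Den
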