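import Pool.Agent.N969.Den.Close
import Pool.Agent.N916.MO.Hg

/-!
# Conductor 17: the density among the fundamental discriminants with root number `+ 1`
-/

set_option autoImplicit false

open Finset Filter

namespace Pool.Agent.N969.Den

open Pool.Agent.N919.BS (NN NS NF HG Rt17 root17 t_NF)
open Pool.Agent.N916.MO (G17)

theorem half17 : Tendsto (fun X : ℕ => (NF Rt17 X : ℝ) / (NF (fun _ => True) X : ℝ)) atTop
    (nhds (1 / 2)) := by
  have h := t_NF root17 (G := fun _ => True) (c := 1) zero_le_one (by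
    intro s k r _ _ _ ε hε
    refine ⟨0, fun Y _ => ?_⟩
    simp only [and_true, one_mul, sub_self, abs_zero]
    positivity)
  simpa only [and_true] using h

theorem ratio2 {A F T : ℕ → ℕ} {c : ℝ}
    (hA : Tendsto (fun X => (A X : ℝ) / (T X : ℝ)) atTop (nhds (c / 2)))
    (hF : Tendsto (fun X => (F X : ℝ) / (T X : ℝ)) atTop (nhds (1 / 2)))
    (hT : Tendsto (fun X => (T X : ℝ)) atTop atTop) :
    Tendsto (fun X => (A X : ℝ) / (F X : ℝ)) atTop (nhds c) := by
  have h := hA.div hF (by norm_num)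
  have e : c / 2 / (1 / 2) = c := by ring
  rw [e] at h
  refine h.congr' ?_
  filter_upwards [hT.eventually_gt_atTop 0] with X hX
  show (A X : ℝ) / T X / ((F X : ℝ) / T X) = (A X : ℝ) / F X
  rw [div_div_div_cancel_right₀ hX.ne']

theorem dens17_root : Tendsto (fun X : ℕ => (NF (fun d => Rt17 d ∧ G17 d) X : ℝ) /
    (NF Rt17 X : ℝ)) atTop (nhds Pool.Agent.Y703.CQ.c2) :=
  ratio2 Pool.Agent.N916.MO.dens17_fd half17 NF_top

end Pool.Agent.N969.Den
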